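import Mathlib.Combinatorics.SimpleGraph.Connectivity.Connected
import Mathlib.Data.ZMod.Basic
import Mathlib.Algebra.Group.Subgroup.Lattice
import Mathlib.Tactic

/-!
# Fold-transitivity does not imply left-cut-percolation
-/

namespace Pool.Agent.Results.MP_d5e15b_co.TwoCopies

/-- The underlying graph of the bigraph with left vertices `L`, right vertices `R` and edge
relation `E`. -/
def graph {L R : Type} (E : L → R → Prop) : SimpleGraph (L ⊕ R) where
  Adj u v := (∃ x y, u = Sum.inl x ∧ v = Sum.inr y ∧ E x y) ∨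
    (∃ x y, v = Sum.inl x ∧ u = Sum.inr y ∧ E x y)
  symm := by
    constructor
    rintro u v (⟨x, y, h1, h2, h3⟩ | ⟨x, y, h1, h2, h3⟩)
    · exact Or.inr ⟨x, y, h1, h2, h3⟩
    · exact Or.inl ⟨x, y, h1, h2, h3⟩
  loopless := by
    constructor
    rintro u (⟨x, y, h1, h2, h3⟩ | ⟨x, y, h1, h2, h3⟩)
    · rw [h1] at h2; exact absurd h2 (by simp)
    · rw [h1] at h2; exact absurd h2 (by simp)

/-- Automorphisms preserve the sides and the edges. -/
def IsAut {L R : Type} (E : L → R → Prop) (φ : Equiv.Perm (L ⊕ R)) : Prop :=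
  (∀ v, (φ v).isLeft = v.isLeft) ∧ ∀ u v, (graph E).Adj (φ u) (φ v) ↔ (graph E).Adj u v

/-- `G - Fix(φ)`. -/
def minusFix {L R : Type} (E : L → R → Prop) (φ : Equiv.Perm (L ⊕ R)) :
    SimpleGraph {v : L ⊕ R | φ v ≠ v} :=
  (graph E).induce {v | φ v ≠ v}

/-- Cut-involutions. -/
def IsCutInvolution {L R : Type} (E : L → R → Prop) (φ : Equiv.Perm (L ⊕ R)) : Prop :=
  IsAut E φ ∧ (∀ v, φ (φ v) = v) ∧ ¬ (minusFix E φ).Preconnected

/-- `(φ, S)` is a fold: `φ` is a cut-involution, `S` is a union of connected components of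
`G - Fix(φ)`, and `S`, `Fix(φ)`, `φ(S)` partition the vertex set. -/
def IsFold {L R : Type} (E : L → R → Prop) (φ : Equiv.Perm (L ⊕ R)) (S : Set (L ⊕ R)) : Prop :=
  IsCutInvolution E φ ∧
  (∀ u v, (minusFix E φ).Reachable u v → (u.1 ∈ S ↔ v.1 ∈ S)) ∧
  Disjoint S {v | φ v = v} ∧ Disjoint S (φ '' S) ∧ Disjoint {v | φ v = v} (φ '' S) ∧
  S ∪ {v | φ v = v} ∪ φ '' S = Set.univ

open Classical in
/-- The left-folding map. -/
noncomputable def foldMap {L R : Type} (φ : Equiv.Perm (L ⊕ R)) (S : Set (L ⊕ R))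
    (v : L ⊕ R) : L ⊕ R :=
  if v ∈ S then v else φ v

/-- `G` is left-cut-percolating. -/
def LeftCutPercolating {L R : Type} (E : L → R → Prop) : Prop :=
  ∃ (m : ℕ) (U : ℕ → Set L), (∃ x, U 0 = {x}) ∧ U m = Set.univ ∧
    ∀ i, i < m → ∃ (φ : Equiv.Perm (L ⊕ R)) (S : Set (L ⊕ R)), IsFold E φ S ∧
      U (i + 1) = {x | ∃ y ∈ U i, foldMap φ S (Sum.inl x) = Sum.inl y}

/-- The group generated by the cut-involutions which belong to a fold. -/
def foldGroup {L R : Type} (E : L → R → Prop) : Subgroup (Equiv.Perm (L ⊕ R)) :=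
  Subgroup.closure {φ | ∃ S, IsFold E φ S}

/-- The group generated by the cut-involutions of folds acts transitively on the left
vertices. -/
def FoldTransitive {L R : Type} (E : L → R → Prop) : Prop :=
  ∀ x y : L, ∃ γ ∈ foldGroup E, γ (Sum.inl x) = Sum.inl y

/-! ## The bigraph -/

/-- Left vertices: two copies of `ℤ/7`. -/
abbrev Lt := Bool × ZMod 7

/-- Right vertices: one vertex `none` joined to everything, and in each copy seven vertices of
degree two and seven of degree three. -/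
abbrev Rt := Option (Bool × ZMod 7 × Bool)

/-- The edges. -/
def E : Lt → Rt → Prop
  | _, none => True
  | p, some (c, i, false) => p.1 = c ∧ (p.2 = i ∨ p.2 = i + 1)
  | p, some (c, i, true) => p.1 = c ∧ (p.2 = i ∨ p.2 = i + 1 ∨ p.2 = i + 3)

/-- The copy of a vertex. -/
def side : Lt ⊕ Rt → Option Bool
  | Sum.inl p => some p.1
  | Sum.inr none => none
  | Sum.inr (some (c, _, _)) => some c

theorem side_eq {u v : Lt ⊕ Rt} (h : (graph E).Adj u v) (hu : side u ≠ none)
    (hv : side v ≠ none) : side u = side v := by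
  have key : ∀ (p : Lt) (r : Rt), E p r → side (Sum.inr r) ≠ none →
      side (Sum.inl p) = side (Sum.inr r) := by
    intro p r h hr
    rcases r with _ | ⟨c, i, k⟩
    · exact absurd rfl hr
    · cases k
      · have := h.1
        change some p.1 = some c
        rw [this]
      · have := h.1
        change some p.1 = some c
        rw [this]
  rcases h with ⟨x, y, rfl, rfl, h⟩ | ⟨x, y, rfl, rfl, h⟩
  · exact key x y h hv
  · exact (key x y h hu).symm

theorem side_reach {φ : Equiv.Perm (Lt ⊕ Rt)} (hφ : ∀ v, side v = none → φ v = v)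
    {u v : {v : Lt ⊕ Rt | φ v ≠ v}} (h : (minusFix E φ).Reachable u v) :
    side u.1 = side v.1 := by
  obtain ⟨w⟩ := h
  induction w with
  | nil => rfl
  | @cons a b c hab _ ih =>
    rw [← ih]
    exact side_eq hab (fun h => a.2 (hφ _ h)) (fun h => b.2 (hφ _ h))

/-! ### The swaps -/

/-- The swap on left vertices. -/
def sw (a : ZMod 7) (p : Lt) : Lt := (!p.1, if p.1 then p.2 - a else p.2 + a)

theorem sw_sw (a : ZMod 7) (p : Lt) : sw a (sw a p) = p := by
  obtain ⟨b, x⟩ := p
  cases b <;> simp [sw]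

/-- The swap on all vertices. -/
def swf (a : ZMod 7) : Lt ⊕ Rt → Lt ⊕ Rt
  | Sum.inl p => Sum.inl (sw a p)
  | Sum.inr none => Sum.inr none
  | Sum.inr (some (c, i, k)) => Sum.inr (some (!c, (if c then i - a else i + a), k))

theorem swf_swf (a : ZMod 7) (v : Lt ⊕ Rt) : swf a (swf a v) = v := by
  rcases v with p | _ | ⟨c, i, k⟩
  · simp only [swf, sw_sw]
  · rfl
  · cases c <;> simp [swf]

/-- The swap as a permutation. -/
def swp (a : ZMod 7) : Equiv.Perm (Lt ⊕ Rt) := Function.Involutive.toPerm _ (swf_swf a)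

theorem swp_apply (a : ZMod 7) (v : Lt ⊕ Rt) : swp a v = swf a v := rfl

theorem E_sw (a : ZMod 7) (p : Lt) (r r' : Rt) (h : swf a (Sum.inr r) = Sum.inr r')
    (hE : E p r) : E (sw a p) r' := by
  rcases r with _ | ⟨c, i, k⟩
  · have : r' = none := by
      simp only [swf, Sum.inr.injEq] at h
      exact h.symm
    subst this
    trivial
  · simp only [swf, Sum.inr.injEq] at h
    subst h
    obtain ⟨b, x⟩ := p
    cases k
    · obtain ⟨h1, h2⟩ := hE
      simp only at h1 h2
      subst h1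
      cases b
      · refine ⟨rfl, ?_⟩
        change x + a = i + a ∨ x + a = i + a + 1
        rcases h2 with rfl | rfl
        · left; ring1
        · right; ring1
      · refine ⟨rfl, ?_⟩
        change x - a = i - a ∨ x - a = i - a + 1
        rcases h2 with rfl | rfl
        · left; ring1
        · right; ring1
    · obtain ⟨h1, h2⟩ := hE
      simp only at h1 h2
      subst h1
      cases b
      · refine ⟨rfl, ?_⟩
        change x + a = i + a ∨ x + a = i + a + 1 ∨ x + a = i + a + 3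
        rcases h2 with rfl | rfl | rfl
        · left; ring1
        · right; left; ring1
        · right; right; ring1
      · refine ⟨rfl, ?_⟩
        change x - a = i - a ∨ x - a = i - a + 1 ∨ x - a = i - a + 3
        rcases h2 with rfl | rfl | rfl
        · left; ring1
        · right; left; ring1
        · right; right; ring1

theorem adj_swp (a : ZMod 7) {u v : Lt ⊕ Rt} (h : (graph E).Adj u v) :
    (graph E).Adj (swp a u) (swp a v) := by
  have key : ∀ (p : Lt) (r : Rt), E p r → ∃ p' r', swp a (Sum.inl p) = Sum.inl p' ∧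
      swp a (Sum.inr r) = Sum.inr r' ∧ E p' r' := by
    intro p r h
    have hr : ∃ r', swf a (Sum.inr r) = Sum.inr r' := by
      rcases r with _ | ⟨c, i, k⟩
      · exact ⟨_, rfl⟩
      · exact ⟨_, rfl⟩
    obtain ⟨r', hr'⟩ := hr
    exact ⟨sw a p, r', rfl, hr', E_sw a p r r' hr' h⟩
  rcases h with ⟨x, y, rfl, rfl, h⟩ | ⟨x, y, rfl, rfl, h⟩
  · obtain ⟨p', r', h1, h2, h3⟩ := key x y h
    exact Or.inl ⟨p', r', h1, h2, h3⟩
  · obtain ⟨p', r', h1, h2, h3⟩ := key x y h
    exact Or.inr ⟨p', r', h1, h2, h3⟩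

theorem swp_swp (a : ZMod 7) (v : Lt ⊕ Rt) : swp a (swp a v) = v := swf_swf a v

theorem isAut_swp (a : ZMod 7) : IsAut E (swp a) := by
  constructor
  · intro v
    rw [swp_apply]
    rcases v with p | _ | ⟨c, i, k⟩ <;> rfl
  · intro u v
    constructor
    · intro h
      have := adj_swp a h
      rwa [swp_swp, swp_swp] at this
    · exact adj_swp a

theorem side_swp (a : ZMod 7) (v : Lt ⊕ Rt) : side (swp a v) = (side v).map (!·) := by
  rw [swp_apply]
  rcases v with p | _ | ⟨c, i, k⟩ <;> rfl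

theorem swp_fix (a : ZMod 7) (v : Lt ⊕ Rt) : swp a v = v ↔ side v = none := by
  constructor
  · intro h
    have h1 := side_swp a v
    rw [h] at h1
    cases hs : side v with
    | none => rfl
    | some b => rw [hs] at h1; cases b <;> simp at h1
  · intro h
    rcases v with p | _ | ⟨c, i, k⟩
    · exact absurd h (by simp [side])
    · rfl
    · exact absurd h (by simp [side])

theorem isFold_swp (a : ZMod 7) : IsFold E (swp a) {v | side v = some false} := by
  refine ⟨⟨isAut_swp a, swp_swp a, ?_⟩, ?_, ?_, ?_, ?_, ?_⟩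
  · intro h
    have h1 : swp a (Sum.inl (false, 0)) ≠ Sum.inl (false, 0) := by
      rw [Ne, swp_fix]; simp [side]
    have h2 : swp a (Sum.inl (true, 0)) ≠ Sum.inl (true, 0) := by
      rw [Ne, swp_fix]; simp [side]
    have := side_reach (fun v hv => (swp_fix a v).2 hv)
      (h ⟨Sum.inl (false, 0), h1⟩ ⟨Sum.inl (true, 0), h2⟩)
    simp [side] at this
  · intro u v h
    have := side_reach (fun v hv => (swp_fix a v).2 hv) h
    change side u.1 = some false ↔ side v.1 = some false
    rw [this]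
  · rw [Set.disjoint_left]
    intro v hv hw
    rw [Set.mem_ofPred_eq, swp_fix] at hw
    rw [Set.mem_ofPred_eq, hw] at hv
    exact absurd hv (by simp)
  · rw [Set.disjoint_left]
    rintro v hv ⟨w, hw, rfl⟩
    rw [Set.mem_ofPred_eq] at hw hv
    rw [side_swp, hw] at hv
    exact absurd hv (by simp)
  · rw [Set.disjoint_left]
    rintro v hv ⟨w, hw, rfl⟩
    rw [Set.mem_ofPred_eq] at hw hv
    rw [swp_fix, side_swp, hw] at hv
    exact absurd hv (by simp)
  · rw [Set.eq_univ_iff_forall]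
    intro v
    rcases hs : side v with _ | b
    · exact Or.inl (Or.inr ((swp_fix a v).2 hs))
    · cases b
      · exact Or.inl (Or.inl hs)
      · refine Or.inr ⟨swp a v, ?_, swp_swp a v⟩
        rw [Set.mem_ofPred_eq, side_swp, hs]
        rfl

theorem transitive : FoldTransitive E := by
  have hmem : ∀ a, swp a ∈ foldGroup E := fun a => Subgroup.subset_closure ⟨_, isFold_swp a⟩
  intro x y
  obtain ⟨b, i⟩ := x
  obtain ⟨c, j⟩ := y
  by_cases h : b = c
  · subst h
    cases b
    · refine ⟨swp 0 * swp (j - i), mul_mem (hmem _) (hmem _), ?_⟩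
      rw [Equiv.Perm.mul_apply, swp_apply, swp_apply]
      simp [swf, sw]
    · refine ⟨swp 0 * swp (i - j), mul_mem (hmem _) (hmem _), ?_⟩
      rw [Equiv.Perm.mul_apply, swp_apply, swp_apply]
      simp [swf, sw]
  · cases b
    · have : c = true := by cases c <;> simp_all
      subst this
      refine ⟨swp (j - i), hmem _, ?_⟩
      rw [swp_apply]
      simp [swf, sw]
    · have : c = false := by cases c <;> simp_all
      subst this
      refine ⟨swp (i - j), hmem _, ?_⟩
      rw [swp_apply]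
      simp [swf, sw]

/-! ### Rigidity -/

theorem zmod_aux (g j : ZMod 7) (h1 : g = j ∨ g = j + 1 ∨ g = j + 3)
    (h2 : g - 1 = j ∨ g - 1 = j + 1 ∨ g - 1 = j + 3)
    (h3 : g - 1 - 1 - 1 = j ∨ g - 1 - 1 - 1 = j + 1 ∨ g - 1 - 1 - 1 = j + 3) : False := by
  revert g j
  decide

theorem zmod_ne (i : ZMod 7) : i ≠ i + 1 ∧ i ≠ i + 3 ∧ i + 1 ≠ i + 3 ∧ i ≠ i + 1 + 1 := by
  revert i
  decide

section rigid

variable {σ : Lt → Lt} {τ : Rt → Rt} (hE : ∀ p r, E (σ p) (τ r) ↔ E p r)
  (hσ : ∀ p, σ (σ p) = p)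

include hσ in
theorem inj {p q : Lt} (h : σ p = σ q) : p = q := by
  rw [← hσ p, h, hσ]

include hE in
theorem tau_ne (b : Bool) (i : ZMod 7) (k : Bool) : τ (some (b, i, k)) ≠ none := by
  intro h
  have h1 := (hE (!b, 0) (some (b, i, k))).1 (by rw [h]; trivial)
  cases k <;> cases b <;> exact absurd h1.1 (by simp)

/-- No degree-two vertex goes to a degree-three vertex and vice versa. -/
theorem pigeon {u v w p q : Lt} (hσ : ∀ p, σ (σ p) = p) (huv : u ≠ v) (huw : u ≠ w)
    (hvw : v ≠ w) (h1 : σ u = p ∨ σ u = q) (h2 : σ v = p ∨ σ v = q) (h3 : σ w = p ∨ σ w = q) :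
    False := by
  rcases h1 with h1 | h1 <;> rcases h2 with h2 | h2 <;> rcases h3 with h3 | h3
  · exact huv (inj hσ (h1.trans h2.symm))
  · exact huv (inj hσ (h1.trans h2.symm))
  · exact huw (inj hσ (h1.trans h3.symm))
  · exact hvw (inj hσ (h2.trans h3.symm))
  · exact hvw (inj hσ (h2.trans h3.symm))
  · exact huw (inj hσ (h1.trans h3.symm))
  · exact huv (inj hσ (h1.trans h2.symm))
  · exact huv (inj hσ (h1.trans h2.symm))

theorem E_two {p : Lt} {c : Bool} {i : ZMod 7} (h : E p (some (c, i, false))) :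
    p = (c, i) ∨ p = (c, i + 1) := by
  obtain ⟨b, x⟩ := p
  obtain ⟨h1, h2⟩ := h
  simp only at h1 h2
  subst h1
  rcases h2 with rfl | rfl
  · exact Or.inl rfl
  · exact Or.inr rfl

theorem E_three {p : Lt} {c : Bool} {i : ZMod 7} (h : E p (some (c, i, true))) :
    p = (c, i) ∨ p = (c, i + 1) ∨ p = (c, i + 3) := by
  obtain ⟨b, x⟩ := p
  obtain ⟨h1, h2⟩ := h
  simp only at h1 h2
  subst h1
  rcases h2 with rfl | rfl | rfl
  · exact Or.inl rfl
  · exact Or.inr (Or.inl rfl)
  · exact Or.inr (Or.inr rfl)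

theorem ne_pair {b : Bool} {x y : ZMod 7} (h : x ≠ y) : ((b, x) : Lt) ≠ (b, y) :=
  fun e => h (Prod.mk.inj e).2

include hE hσ in
theorem edge (b : Bool) (i : ZMod 7) :
    ∃ c j, τ (some (b, i, false)) = some (c, j, false) ∧
      (σ (b, i) = (c, j) ∧ σ (b, i + 1) = (c, j + 1) ∨
        σ (b, i) = (c, j + 1) ∧ σ (b, i + 1) = (c, j)) := by
  rcases hr : τ (some (b, i, false)) with _ | ⟨c, j, k⟩
  · exact absurd hr (tau_ne hE b i false)
  cases k
  · refine ⟨c, j, rfl, ?_⟩
    have h1 := (hE (b, i) (some (b, i, false))).2 ⟨rfl, Or.inl rfl⟩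
    have h2 := (hE (b, i + 1) (some (b, i, false))).2 ⟨rfl, Or.inr rfl⟩
    rw [hr] at h1 h2
    have hne := (zmod_ne i).1
    rcases E_two h1 with h1 | h1 <;> rcases E_two h2 with h2 | h2
    · exact absurd (inj hσ (h1.trans h2.symm)) (ne_pair hne)
    · exact Or.inl ⟨h1, h2⟩
    · exact Or.inr ⟨h1, h2⟩
    · exact absurd (inj hσ (h1.trans h2.symm)) (ne_pair hne)
  · exfalso
    have key : ∀ u : Lt, E u (some (c, j, true)) → σ u = (b, i) ∨ σ u = (b, i + 1) := by
      intro u hu
      have := (hE (σ u) (some (b, i, false))).1 (by rw [hσ, hr]; exact hu)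
      exact E_two this
    obtain ⟨n1, n2, n3, _⟩ := zmod_ne j
    exact pigeon hσ (ne_pair n1) (ne_pair n2) (ne_pair n3)
      (key (c, j) ⟨rfl, Or.inl rfl⟩) (key (c, j + 1) ⟨rfl, Or.inr (Or.inl rfl)⟩)
      (key (c, j + 3) ⟨rfl, Or.inr (Or.inr rfl)⟩)

include hE hσ in
theorem line (b : Bool) (i : ZMod 7) :
    ∃ c j, (σ (b, i) = (c, j) ∨ σ (b, i) = (c, j + 1) ∨ σ (b, i) = (c, j + 3)) ∧
      (σ (b, i + 1) = (c, j) ∨ σ (b, i + 1) = (c, j + 1) ∨ σ (b, i + 1) = (c, j + 3)) ∧
      (σ (b, i + 3) = (c, j) ∨ σ (b, i + 3) = (c, j + 1) ∨ σ (b, i + 3) = (c, j + 3)) := by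
  rcases hr : τ (some (b, i, true)) with _ | ⟨c, j, k⟩
  · exact absurd hr (tau_ne hE b i true)
  have h1 := (hE (b, i) (some (b, i, true))).2 ⟨rfl, Or.inl rfl⟩
  have h2 := (hE (b, i + 1) (some (b, i, true))).2 ⟨rfl, Or.inr (Or.inl rfl)⟩
  have h3 := (hE (b, i + 3) (some (b, i, true))).2 ⟨rfl, Or.inr (Or.inr rfl)⟩
  rw [hr] at h1 h2 h3
  cases k
  · exfalso
    obtain ⟨n1, n2, n3, _⟩ := zmod_ne i
    exact pigeon hσ (ne_pair n1) (ne_pair n2) (ne_pair n3) (E_two h1) (E_two h2) (E_two h3)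
  · exact ⟨c, j, E_three h1, E_three h2, E_three h3⟩

include hE hσ in
theorem pm (b : Bool) (i : ZMod 7) : (σ (b, i + 1)).1 = (σ (b, i)).1 ∧
    ((σ (b, i + 1)).2 = (σ (b, i)).2 + 1 ∨ (σ (b, i + 1)).2 = (σ (b, i)).2 - 1) := by
  obtain ⟨c, j, -, ⟨h1, h2⟩ | ⟨h1, h2⟩⟩ := edge hE hσ b i
  · rw [h1, h2]
    exact ⟨rfl, Or.inl rfl⟩
  · rw [h1, h2]
    exact ⟨rfl, Or.inr (by simp)⟩

include hE hσ in
theorem down (b : Bool) (i : ZMod 7) (h : (σ (b, i + 1)).2 = (σ (b, i)).2 - 1) :
    (σ (b, i + 1 + 1)).2 = (σ (b, i + 1)).2 - 1 := by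
  rcases (pm hE hσ b (i + 1)).2 with h1 | h1
  · exfalso
    have h2 : σ (b, i + 1 + 1) = σ (b, i) := by
      ext
      · rw [(pm hE hσ b (i + 1)).1, (pm hE hσ b i).1]
      · rw [h1, h]; ring_nf
    have h3 := inj hσ h2
    exact (zmod_ne i).2.2.2 (Prod.mk.inj h3).2.symm
  · exact h1

include hE hσ in
theorem succ (b : Bool) (i : ZMod 7) :
    σ (b, i + 1) = ((σ (b, i)).1, (σ (b, i)).2 + 1) := by
  rcases (pm hE hσ b i).2 with h | h
  · ext
    · exact (pm hE hσ b i).1
    · rw [h]
  · exfalso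
    have h2 := down hE hσ b i h
    have h3 := down hE hσ b (i + 1) h2
    have e : i + 1 + 1 + 1 = i + 3 := by ring
    rw [e] at h3
    obtain ⟨c, j, k1, k2, k3⟩ := line hE hσ b i
    have f : ∀ {p : Lt}, (p = (c, j) ∨ p = (c, j + 1) ∨ p = (c, j + 3)) →
        (p.2 = j ∨ p.2 = j + 1 ∨ p.2 = j + 3) := by
      rintro p (rfl | rfl | rfl) <;> simp
    have f1 := f k1
    have f2 := f k2
    have f3 := f k3
    rw [h] at f2
    rw [h3, h2, h] at f3
    exact zmod_aux _ j f1 f2 f3

include hE hσ in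
theorem shift (b : Bool) (n : ℕ) :
    σ (b, (n : ZMod 7)) = ((σ (b, 0)).1, (σ (b, 0)).2 + n) := by
  induction n with
  | zero => simp
  | succ n ih =>
    rw [Nat.cast_succ, succ hE hσ, ih]
    simp only [add_assoc]

include hE hσ in
theorem shift' (b : Bool) (x : ZMod 7) :
    σ (b, x) = ((σ (b, 0)).1, (σ (b, 0)).2 + x) := by
  have := shift hE hσ b x.val
  rwa [ZMod.natCast_val, ZMod.cast_id] at this

include hE hσ in
/-- Either the involution fixes all left vertices, or it exchanges the two copies. -/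
theorem id_or_swap : (∀ p, σ p = p) ∨ (∀ p, (σ p).1 = !p.1) := by
  have hcopy : ∀ b, (σ (b, 0)).1 = b → ∀ x, σ (b, x) = (b, x) := by
    intro b hb x
    have h0 := shift' hE hσ b (σ (b, 0)).2
    have h1 : ((b, (σ (b, 0)).2) : Lt) = σ (b, 0) := by
      ext
      · exact hb.symm
      · rfl
    rw [h1, hσ] at h0
    have h2 : (0 : ZMod 7) = (σ (b, 0)).2 + (σ (b, 0)).2 := (Prod.mk.inj h0).2
    have h3 : ∀ z : ZMod 7, 0 = z + z → z = 0 := by decide
    have h4 := h3 _ h2
    rw [shift' hE hσ b x, hb, h4, zero_add]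
  by_cases h : ∃ b, (σ (b, 0)).1 = b
  · left
    obtain ⟨b, hb⟩ := h
    have hb' : (σ (!b, 0)).1 = !b := by
      by_contra hne
      have h1 : (σ (!b, 0)).1 = b := by
        cases b <;> simp_all
      have h2 := hcopy b hb (σ (!b, 0)).2
      have h3 : ((b, (σ (!b, 0)).2) : Lt) = σ (!b, 0) := by
        ext
        · exact h1.symm
        · rfl
      rw [h3, hσ] at h2
      have h4 := congrArg Prod.fst h2
      simp only at h4
      rw [h1] at h4
      cases b <;> simp at h4
    rintro ⟨c, x⟩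
    by_cases hc : c = b
    · subst hc
      exact hcopy c hb x
    · have : c = !b := by cases b <;> cases c <;> simp_all
      subst this
      exact hcopy _ hb' x
  · right
    rintro ⟨b, x⟩
    rw [shift' hE hσ b x]
    have h1 : (σ (b, 0)).1 ≠ b := fun e => h ⟨b, e⟩
    change (σ (b, 0)).1 = !b
    revert h1
    generalize (σ (b, 0)).1 = c
    cases b <;> cases c <;> simp

end rigid

/-- The invariant: at most one left vertex in each copy. -/
def Thin (U : Set Lt) : Prop := ∀ b x y, (b, x) ∈ U → (b, y) ∈ U → x = y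

theorem thin_step {φ : Equiv.Perm (Lt ⊕ Rt)} {S : Set (Lt ⊕ Rt)} (hf : IsFold E φ S)
    {U : Set Lt} (hU : Thin U) :
    Thin {x | ∃ y ∈ U, foldMap φ S (Sum.inl x) = Sum.inl y} := by
  obtain ⟨⟨⟨haut1, haut2⟩, hinv, -⟩, hcomp, hd1, hd2, hd3, hun⟩ := hf
  have hσ' : ∀ p, ∃ q, φ (Sum.inl p) = Sum.inl q := by
    intro p
    have := haut1 (Sum.inl p)
    rcases h : φ (Sum.inl p) with q | r
    · exact ⟨q, rfl⟩
    · rw [h] at this
      exact absurd this (by simp)
  have hτ' : ∀ r, ∃ r', φ (Sum.inr r) = Sum.inr r' := by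
    intro r
    have := haut1 (Sum.inr r)
    rcases h : φ (Sum.inr r) with q | r'
    · rw [h] at this
      exact absurd this (by simp)
    · exact ⟨r', rfl⟩
  choose σ hσ0 using hσ'
  choose τ hτ0 using hτ'
  have adj_iff : ∀ p r, (graph E).Adj (Sum.inl p) (Sum.inr r) ↔ E p r := by
    intro p r
    constructor
    · rintro (⟨x, y, h1, h2, h3⟩ | ⟨x, y, h1, h2, h3⟩)
      · rw [Sum.inl.inj h1, Sum.inr.inj h2]
        exact h3
      · exact absurd h1 (by simp)
    · intro h
      exact Or.inl ⟨p, r, rfl, rfl, h⟩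
  have hE : ∀ p r, E (σ p) (τ r) ↔ E p r := by
    intro p r
    rw [← adj_iff, ← adj_iff, ← hσ0, ← hτ0]
    exact haut2 _ _
  have hσ : ∀ p, σ (σ p) = p := by
    intro p
    have := hinv (Sum.inl p)
    rw [hσ0, hσ0] at this
    exact Sum.inl.inj this
  rcases id_or_swap hE hσ with hid | hsw
  · -- the left vertices are fixed
    have hfix : ∀ p, foldMap φ S (Sum.inl p) = Sum.inl p := by
      intro p
      unfold foldMap
      split_ifs
      · rfl
      · rw [hσ0, hid]
    intro b x y hx hy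
    obtain ⟨p, hp, hp'⟩ := hx
    obtain ⟨q, hq, hq'⟩ := hy
    rw [hfix] at hp' hq'
    rw [← Sum.inl.inj hp'] at hp
    rw [← Sum.inl.inj hq'] at hq
    exact hU b x y hp hq
  · -- the two copies are exchanged
    have hnl : ∀ p, φ (Sum.inl p) ≠ Sum.inl p := by
      intro p h
      rw [hσ0] at h
      have h1 := hsw p
      rw [Sum.inl.inj h] at h1
      obtain ⟨b, x⟩ := p
      cases b <;> simp at h1
    have hsucc : ∀ b i, (Sum.inl (b, i) ∈ S ↔ Sum.inl (b, i + 1) ∈ S) := by
      intro b i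
      have hr : φ (Sum.inr (some (b, i, false))) ≠ Sum.inr (some (b, i, false)) := by
        intro h
        rw [hτ0] at h
        have h0 := Sum.inr.inj h
        have h1 := (hE (b, i) (some (b, i, false))).2 ⟨rfl, Or.inl rfl⟩
        rw [h0] at h1
        have h2 := h1.1
        rw [hsw] at h2
        cases b <;> simp at h2
      have a1 : (minusFix E φ).Adj ⟨Sum.inl (b, i), hnl _⟩ ⟨Sum.inr (some (b, i, false)), hr⟩ :=
        (adj_iff _ _).2 ⟨rfl, Or.inl rfl⟩
      have a2 : (minusFix E φ).Adj ⟨Sum.inl (b, i + 1), hnl _⟩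
          ⟨Sum.inr (some (b, i, false)), hr⟩ := (adj_iff _ _).2 ⟨rfl, Or.inr rfl⟩
      exact hcomp ⟨Sum.inl (b, i), hnl _⟩ ⟨Sum.inl (b, i + 1), hnl _⟩
        (a1.reachable.trans a2.symm.reachable)
    have hall : ∀ b (n : ℕ), (Sum.inl (b, (0 : ZMod 7)) ∈ S ↔
        Sum.inl (b, ((n : ℕ) : ZMod 7)) ∈ S) := by
      intro b n
      induction n with
      | zero => rw [Nat.cast_zero]
      | succ n ih => rw [ih, Nat.cast_succ]; exact hsucc b n
    have hall' : ∀ b x, (Sum.inl (b, (0 : ZMod 7)) ∈ S ↔ Sum.inl (b, x) ∈ S) := by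
      intro b x
      have := hall b x.val
      rwa [ZMod.natCast_val, ZMod.cast_id] at this
    intro b x y hx hy
    obtain ⟨p, hp, hp'⟩ := hx
    obtain ⟨q, hq, hq'⟩ := hy
    unfold foldMap at hp' hq'
    by_cases hb : Sum.inl (b, (0 : ZMod 7)) ∈ S
    · rw [if_pos ((hall' b x).1 hb)] at hp'
      rw [if_pos ((hall' b y).1 hb)] at hq'
      rw [← Sum.inl.inj hp'] at hp
      rw [← Sum.inl.inj hq'] at hq
      exact hU b x y hp hq
    · rw [if_neg (fun h => hb ((hall' b x).2 h)), hσ0] at hp'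
      rw [if_neg (fun h => hb ((hall' b y).2 h)), hσ0] at hq'
      rw [← Sum.inl.inj hp'] at hp
      rw [← Sum.inl.inj hq'] at hq
      have hx1 : σ (b, x) = (!b, (σ (b, x)).2) := by
        ext
        · exact hsw _
        · rfl
      have hy1 : σ (b, y) = (!b, (σ (b, y)).2) := by
        ext
        · exact hsw _
        · rfl
      rw [hx1] at hp
      rw [hy1] at hq
      have h2 := hU (!b) _ _ hp hq
      have h3 : σ (b, x) = σ (b, y) := by rw [hx1, hy1, h2]
      have h4 := inj hσ h3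
      exact (Prod.mk.inj h4).2

theorem not_percolating : ¬ LeftCutPercolating E := by
  rintro ⟨m, U, ⟨p, hp⟩, hm, hstep⟩
  have key : ∀ i, i ≤ m → Thin (U i) := by
    intro i
    induction i with
    | zero =>
      intro _ b x y hx hy
      rw [hp, Set.mem_singleton_iff] at hx hy
      exact (Prod.mk.inj (hx.trans hy.symm)).2
    | succ i ih =>
      intro hi
      obtain ⟨φ, S, hf, hU⟩ := hstep i (by omega)
      rw [hU]
      exact thin_step hf (ih (by omega))
  have h := key m le_rfl false 0 1 (by rw [hm]; trivial) (by rw [hm]; trivial)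
  exact absurd h (by decide)

/-- There is a finite bigraph on which the group generated by the cut-involutions belonging to
folds acts transitively on the left vertices, but which is not left-cut-percolating. -/
theorem result : ∃ (L R : Type) (_ : Fintype L) (_ : Fintype R) (E : L → R → Prop),
    FoldTransitive E ∧ ¬ LeftCutPercolating E :=
  ⟨Lt, Rt, inferInstance, inferInstance, E, transitive, not_percolating⟩

end Pool.Agent.Results.MP_d5e15b_co.TwoCopies
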